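import Mathlib
import Pool.Agent.H12x.UF.Cor

/-!
# A prime tuples theorem of the type of Hindman, Milliken and Taylor

Linear forms `A x + B` are written as pairs `(A, B)`. For EVERY function `φ` from the nonempty finite sets of natural
numbers to the primitive linear forms with `A ≥ 1` (for shifts: the forms `x + b`) there are finite sets
`H_0 < H_1 < H_2 < ...` such that, with `H(α)` the union of the `H_m`, `m ∈ α`,

* either all the forms `φ (H(α))` are equal,
* or for all finite sets `α_0 < α_1 < α_2 < ...` the forms `φ (H(α_l))` are different, and for every `L` and every finite set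
  `T` of other forms with `A ≥ 1` there are infinitely many `x` for which the values of the `φ (H(α_l))`, `l < L`, are
  all prime and those of the forms of `T` are not.

For instance, for every sequence of positive integers the subsums over blocks contain, after passing to the sums
`y_m` over suitable `H_m`, a whole system of sums `y(α)` such that all sets `{y(α_0), ..., y(α_k)}`, `α_0 < ... < α_k`, are
exact patterns of primes; the same for `φ` given by products, least common multiples, polynomials of sums and so on.

Proof. The image of an idempotent ultrafilter on the semigroup of the finite sets (Hindman's theorem, after Galvin and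
Glazer) is principal, or one can follow a tree of exact prime patterns which branches almost everywhere with respect
to this image (`Pool.Agent.H12x.UF.tree_one`, a rank argument based on the infinite pattern theorem of the starting
files); the stars of the branching sets make it possible to choose the `H_m` one after the other.
-/

set_option autoImplicit false

namespace Pool.Agent.Results.MP_68a45e_nt.FunctionsOfFiniteSets

open Finset

/-- a sequence of successive nonempty finite sets `H 0 < H 1 < ...` -/
def Blocks (H : ℕ → Finset ℕ) : Prop := (∀ m, (H m).Nonempty) ∧ ∀ m, ∀ i ∈ H m, ∀ j ∈ H (m + 1), i < j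

theorem result : ∀ φ : Finset ℕ → ℤ × ℤ, (∀ β, β.Nonempty → 1 ≤ (φ β).1 ∧ IsCoprime (φ β).1 (φ β).2) →
    ∃ H, Blocks H ∧ ((∃ f, ∀ α : Finset ℕ, α.Nonempty → φ (α.biUnion H) = f) ∨
      ∀ α, Blocks α → ∀ L : ℕ, (∀ l < L, φ ((α l).biUnion H) ≠ φ ((α L).biUnion H)) ∧
        ∀ T : Finset (ℤ × ℤ), (∀ f ∈ T, 1 ≤ f.1 ∧ ∀ l < L, f ≠ φ ((α l).biUnion H)) →
          {x : ℕ | (∀ l < L, ((φ ((α l).biUnion H)).1 * x + (φ ((α l).biUnion H)).2).toNat.Prime) ∧
            ∀ f ∈ T, ¬ (f.1 * x + f.2).toNat.Prime}.Infinite) := by
  intro φ hφ
  obtain ⟨H, hH, h⟩ := Pool.Agent.H12x.UF.one_family φ hφ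
  refine ⟨H, hH, h.imp id fun h α hα L => ⟨(h α hα L).1, fun T hT => ?_⟩⟩
  refine Set.Infinite.mono ?_ ((h α hα L).2 T fun f hf => ⟨(hT f hf).1, fun hfm => ?_⟩)
  · intro x hx
    refine ⟨fun l hl => hx.1 _ (mem_image.2 ⟨l, mem_range.2 hl, rfl⟩), hx.2⟩
  · obtain ⟨l, hl, rfl⟩ := mem_image.1 hfm
    exact (hT _ hf).2 l (mem_range.1 hl) rfl

end Pool.Agent.Results.MP_68a45e_nt.FunctionsOfFiniteSets
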