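import Mathlib
import Pool.Agent.H12x.UF.Cor

/-!
# Prime tuples along ultrafilters

Linear forms `A x + B` are written as pairs `(A, B)`. Let `p_1, ..., p_n` be ANY nonprincipal ultrafilters on the
primitive forms with `A ≥ 1` (for shifts: on the forms `x + b`), such that for every prime `q ≤ n` there is `c` with
`q ∤ A c + B` for `p_i`-almost all forms, for all `i` (nothing is assumed for `n = 1`). There is a set `S` of at least
`n / 400` labels such that for every set `Y` of forms which is small for all `p_i` (for `n = 1`: for EVERY set `Y`) there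
is a tree `W` of infinite depth: a family of pairs `(F, T)` of finite sets of forms, containing `(∅, ∅)`, such that

* for every `(F, T)` in `W` and every finite set `T'` of forms of `Y` outside `F`, with `A ≥ 1`, infinitely many `x` make
  all forms of `F` prime and none of the forms of `T` and `T'`;
* every `(F, T)` in `W` can be extended, within `W`, by `p_i`-almost every form in each of its two components, for
  every `i` in `S`.

In particular, for `n = 1` and `Y` = all forms: `p`-almost all `f_1`, `p`-almost all `f_2`, ..., `p`-almost all `f_k` are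
such that infinitely many `x` make `f_1 (x), ..., f_k (x)` prime and no form of any given finite set of other forms, and
all such choices can be continued in the same way without end.

Proof. A rank argument: if the root of the tree of winning positions had an ordinal rank, then a sequence of forms which
is generic for the strategies (with respect to all of its finite subsets) would contradict the theorem on infinite exact
prime patterns in sequences of forms divided into classes of the starting files (`Pool.Agent.N790.IA.classes`, used there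
for arrays, i.e. for one nonprincipal ultrafilter on the columns).
-/

set_option autoImplicit false

namespace Pool.Agent.Results.MP_68a45e_nt.PatternsAlongUltrafilters

open Finset

/-- infinitely many `x` make the forms of `F` prime and those of `T` not prime -/
def Good (F T : Finset (ℤ × ℤ)) : Prop :=
  {x : ℕ | (∀ f ∈ F, (f.1 * x + f.2).toNat.Prime) ∧ ∀ f ∈ T, ¬ (f.1 * x + f.2).toNat.Prime}.Infinite

theorem result : ∀ n : ℕ, 1 ≤ n → ∀ p : Fin n → Ultrafilter (ℤ × ℤ), (∀ i f, {f}ᶜ ∈ p i) →
    (∀ i, {f : ℤ × ℤ | 1 ≤ f.1 ∧ IsCoprime f.1 f.2} ∈ p i) →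
    (∀ q : ℕ, q.Prime → q ≤ n → ∃ c : ℤ, ∀ i, {f : ℤ × ℤ | ¬ (q : ℤ) ∣ f.1 * c + f.2} ∈ p i) →
    ∃ S : Finset (Fin n), n ≤ 400 * S.card ∧ ∀ Y : Set (ℤ × ℤ), (n = 1 ∨ ∀ i, Yᶜ ∈ p i) →
      ∃ W : Set (Finset (ℤ × ℤ) × Finset (ℤ × ℤ)), (∅, ∅) ∈ W ∧ ∀ F T, (F, T) ∈ W →
        (∀ T' : Finset (ℤ × ℤ), (∀ f ∈ T', f ∈ Y ∧ 1 ≤ f.1 ∧ f ∉ F) → Good F (T ∪ T')) ∧
        ∀ i ∈ S, {f | (insert f F, T) ∈ W ∧ (F, insert f T) ∈ W} ∈ p i := by
  intro n hn p h1 h2 h3
  have hp : Pool.Agent.H12x.UF.Adm p := ⟨h1, h2, h3⟩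
  by_cases hn1 : n = 1
  · subst hn1
    refine ⟨univ, by simp, fun Y _ => ?_⟩
    obtain ⟨W, hW0, hWG, hW⟩ := Pool.Agent.H12x.UF.tree_one (h1 0) (h2 0)
    refine ⟨{P | P.1 ∈ W ∧ ∀ f ∈ P.2, 1 ≤ f.1 ∧ f ∉ P.1}, ⟨hW0, by simp⟩, fun F T hFT => ⟨?_, ?_⟩⟩
    · intro T' hT'
      refine hWG F hFT.1 (T ∪ T') fun f hf => ?_
      rcases mem_union.1 hf with h | h
      · exact hFT.2 f h
      · exact ⟨(hT' f h).2.1, (hT' f h).2.2⟩
    · intro i _
      have hi : i = 0 := Subsingleton.elim _ _
      subst hi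
      filter_upwards [hW F hFT.1, hp.notMem 0 F, hp.notMem 0 T, h2 0] with f h4 h5 h6 h7
      refine ⟨⟨h4, fun g hg => ⟨(hFT.2 g hg).1, fun hgf => ?_⟩⟩, ⟨hFT.1, fun g hg => ?_⟩⟩
      · rcases mem_insert.1 hgf with rfl | h
        · exact h6 hg
        · exact (hFT.2 g hg).2 h
      · rcases mem_insert.1 hg with rfl | h
        · exact ⟨h7.1, h5⟩
        · exact hFT.2 g h
  · obtain ⟨S, hS, hY⟩ := Pool.Agent.H12x.UF.trees hn hp
    refine ⟨S, hS, fun Y hYp => ?_⟩
    obtain ⟨W, hW0, hWG, hW⟩ := hY Y (hYp.resolve_left hn1)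
    refine ⟨W, hW0, fun F T hFT => ⟨fun T' hT' => hWG _ hFT T' hT', fun i hi => ?_⟩⟩
    filter_upwards [hW _ hFT i hi true, hW _ hFT i hi false] with f h4 h5
    exact ⟨h4, h5⟩

end Pool.Agent.Results.MP_68a45e_nt.PatternsAlongUltrafilters
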